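import Pool.Agent.H70.NE.Targets

/-!
Module RUS of the board `ne_modules`: the formula of Margulis and Russo.
-/

set_option autoImplicit false

namespace Pool.Agent.H48.NE

open Finset Filter Pool.Agent.H6.NB Pool.Agent.H70.OQ Pool.Agent.H70.NC Pool.Agent.H70.NE

section

variable {M : Type} [Fintype M] [DecidableEq M]

theorem pairing (m : M) (G : (M → Bool) → ℝ) :
    ∑ β, G β = 1 / 2 * ∑ β, (G (Function.update β m true) + G (Function.update β m false)) := by
  have hinv : Function.Involutive (fun β : M → Bool => Function.update β m (!β m)) := by
    intro β
    simp only [Function.update_self, Bool.not_not, Function.update_idem,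
      Function.update_eq_self]
  have h1 : ∑ β : M → Bool, G (Function.update β m (!β m)) = ∑ β, G β :=
    Fintype.sum_equiv hinv.toPerm _ _ (fun β => rfl)
  have h2 : ∀ β : M → Bool, G (Function.update β m true) + G (Function.update β m false) =
      G β + G (Function.update β m (!β m)) := by
    intro β
    cases h : β m
    · have h3 : Function.update β m false = β := by rw [← h, Function.update_eq_self]
      rw [h3, Bool.not_false, add_comm]
    · have h3 : Function.update β m true = β := by rw [← h, Function.update_eq_self]
      rw [h3, Bool.not_true]
  simp_rw [h2]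
  rw [sum_add_distrib, h1]
  ring

/-- the product over the other coordinates -/
noncomputable def Qr (p : ℝ) (m : M) (β : M → Bool) : ℝ :=
  ∏ m' ∈ univ.erase m, (if β m' then p else 1 - p)

theorem Qr_update (p : ℝ) (m : M) (β : M → Bool) (b : Bool) :
    Qr p m (Function.update β m b) = Qr p m β := by
  unfold Qr
  refine prod_congr rfl fun m' hm' => ?_
  rw [Function.update_of_ne (ne_of_mem_erase hm')]

theorem lw_eq (p : ℝ) (m : M) (β : M → Bool) :
    lw p β = (if β m then p else 1 - p) * Qr p m β := by
  unfold lw Qr
  exact (mul_prod_erase univ (fun a => if β a = true then p else 1 - p) (mem_univ m)).symm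

theorem rus_one (F : (M → Bool) → ℝ) (p : ℝ) (m : M) :
    ∑ β, Qr p m β * (if β m then (1 : ℝ) else -1) * F β =
      ∑ β, lw p β * (F (Function.update β m true) - F (Function.update β m false)) := by
  rw [pairing m, pairing m (fun β => lw p β *
    (F (Function.update β m true) - F (Function.update β m false)))]
  congr 1
  refine sum_congr rfl fun β _ => ?_
  rw [lw_eq p m, lw_eq p m]
  simp only [Qr_update, Function.update_self, Function.update_idem]
  simp only [if_true, Bool.false_eq_true, if_false]
  ring

end

theorem pf_rus : T_RUS := by
  intro M _ _ F p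
  have h1 : ∀ β : M → Bool, HasDerivAt (fun p : ℝ => lw p β)
      (∑ m, Qr p m β * (if β m then (1 : ℝ) else -1)) p := by
    intro β
    have h2 : ∀ m ∈ (univ : Finset M), HasDerivAt (fun p : ℝ => if β m then p else 1 - p)
        (if β m then (1 : ℝ) else -1) p := by
      intro m _
      cases h : β m
      · simpa using (hasDerivAt_id p).const_sub 1
      · simp only [if_true]
        exact hasDerivAt_id p
    have h3 := HasDerivAt.fun_finsetProd h2
    simp only [smul_eq_mul] at h3
    exact h3
  have h2 := HasDerivAt.fun_sum (u := (univ : Finset (M → Bool)))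
    (fun β _ => (h1 β).mul_const (F β))
  have h3 : ∑ β, (∑ m, Qr p m β * (if β m then (1 : ℝ) else -1)) * F β =
      ∑ m, ∑ β, lw p β * (F (Function.update β m true) - F (Function.update β m false)) := by
    simp_rw [sum_mul]
    rw [sum_comm]
    exact sum_congr rfl fun m _ => rus_one F p m
  rw [h3] at h2
  exact h2

end Pool.Agent.H48.NE
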