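import Pool.Agent.H70.NE.Targets

/-!
Module TLG of the board `ne_modules`: the tail bound for predictions which are almost increasing.
-/

set_option autoImplicit false

namespace Pool.Agent.H48.NE.TLG

open Finset Filter Pool.Agent.H6.NB Pool.Agent.H70.OQ Pool.Agent.H70.NC Pool.Agent.H70.NE

section

variable {M : Type} [Fintype M] [DecidableEq M]

theorem lw_cont (η : ℝ) (β : M → Bool) :
    Continuous (fun u : ℝ => lw (1 / 2 + η * (2 * u - 1)) β) := by
  unfold lw
  refine continuous_finsetProd _ fun m _ => ?_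
  cases β m
  · simp only [Bool.false_eq_true, if_false]
    fun_prop
  · simp only [if_true]
    fun_prop

theorem sum_lw (p : ℝ) : ∑ β : M → Bool, lw p β = 1 := by
  unfold lw
  have h := (Finset.prod_univ_sum (fun _ : M => (univ : Finset Bool))
    (fun _ b => if b = true then p else 1 - p)).symm
  rw [Fintype.piFinset_univ] at h
  rw [h]
  simp

theorem lw_nn {p : ℝ} (h0 : 0 ≤ p) (h1 : p ≤ 1) (β : M → Bool) : 0 ≤ lw p β := by
  unfold lw
  refine prod_nonneg fun m _ => ?_
  split_ifs
  · exact h0
  · linarith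

theorem cnt_eq (P : M → Prop) [DecidablePred P] :
    (cnt P : ℝ) = ∑ m, if P m then (1 : ℝ) else 0 := by
  classical
  unfold cnt
  rw [← Finset.sum_filter, Finset.sum_const, nsmul_eq_mul, mul_one]
  congr 2
  ext m
  simp only [Finset.mem_filter]

theorem term_le (b1 b2 : Bool) {η p : ℝ} (h0 : 1 / 2 - η ≤ p) (h1 : p ≤ 1 / 2 + η) :
    (if b1 = !b2 then (1 : ℝ) else 0) ≤
      (1 / 2 + η) - sb b1 * ((if b2 = true then 1 else 0) - p) := by
  cases b1 <;> cases b2 <;> simp [sb] <;> linarith

theorem ic_le (g : M → (M → Bool) → Bool) {η γ p : ℝ} (hγ : 0 < γ)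
    (hK : 0 < (Fintype.card M : ℝ)) (h0 : 1 / 2 - η ≤ p)
    (h1 : p ≤ 1 / 2 + η) (β : M → Bool) :
    ic ((1 / 2 + η + γ / 2) * Fintype.card M < cnt fun m => g m β = !β m) ≤
      4 / (γ ^ 2 * (Fintype.card M : ℝ) ^ 2) *
        (∑ m, sb (g m β) * ((if β m = true then 1 else 0) - p)) ^ 2 := by
  unfold ic
  split_ifs with h
  · have h2 : (cnt fun m => g m β = !β m : ℝ) ≤ (1 / 2 + η) * Fintype.card M -
        ∑ m, sb (g m β) * ((if β m = true then 1 else 0) - p) := by
      rw [cnt_eq]
      calc ∑ m, (if g m β = !β m then (1 : ℝ) else 0) ≤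
          ∑ m, ((1 / 2 + η) - sb (g m β) * ((if β m = true then 1 else 0) - p)) :=
            sum_le_sum fun m _ => term_le _ _ h0 h1
        _ = _ := by
            rw [sum_sub_distrib, sum_const, card_univ, nsmul_eq_mul]
            ring
    set S := ∑ m, sb (g m β) * ((if β m = true then 1 else 0) - p)
    have h3 : γ * (Fintype.card M : ℝ) / 2 < -S := by nlinarith
    have h4 : 0 < γ * (Fintype.card M : ℝ) / 2 := by positivity
    have h5 : γ ^ 2 * (Fintype.card M : ℝ) ^ 2 / 4 ≤ S ^ 2 := by nlinarith
    rw [div_mul_eq_mul_div, le_div_iff₀ (by positivity)]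
    linarith
  · positivity

end

theorem pf_tlg (h1 : T_WAV) (h2 : T_RUS) (h3 : T_SMB) : T_TLG := by
  intro M _ _ _ η γ g hη hη4 hγ hg
  have hK0 : (0 : ℝ) < (Fintype.card M : ℝ) := by exact_mod_cast Fintype.card_pos
  obtain ⟨-, -, w3, -⟩ := h1 M η hη.le hη4
  set K : ℝ := (Fintype.card M : ℝ) with hK
  set c : ℝ := 4 / (γ ^ 2 * K ^ 2) with hc
  have hc0 : 0 < c := by positivity
  let R : M → ℝ → ℝ := fun m u => ∑ m', ∑ β, lw (1 / 2 + η * (2 * u - 1)) β *
    (sb (g m (Function.update β m' true)) - sb (g m (Function.update β m' false)))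
  let NN : M → M → ℝ → ℝ := fun m m' u => ∑ β, lw (1 / 2 + η * (2 * u - 1)) β *
    ic (Neg (g m) m' β)
  have hRc : ∀ m, Continuous (R m) := fun m =>
    continuous_finsetSum _ fun m' _ => continuous_finsetSum _ fun β _ =>
      (lw_cont η β).mul continuous_const
  have hNc : ∀ m m', Continuous (NN m m') := fun m m' =>
    continuous_finsetSum _ fun β _ => (lw_cont η β).mul continuous_const
  have hR1 : ∀ m, ∫ u in (0 : ℝ)..1, R m u ≤ 1 / η := by
    intro m
    have hd : ∀ u : ℝ, HasDerivAt
        (fun u : ℝ => (∑ β, lw (1 / 2 + η * (2 * u - 1)) β * sb (g m β)) / (2 * η)) (R m u) u := by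
      intro u
      have e1 := h2 M (fun β => sb (g m β)) (1 / 2 + η * (2 * u - 1))
      have e2 : HasDerivAt (fun u : ℝ => 1 / 2 + η * (2 * u - 1)) (2 * η) u := by
        have e3 := ((((hasDerivAt_id u).const_mul 2).sub_const 1).const_mul η).const_add (1 / 2)
        have e4 : η * (2 * 1) = 2 * η := by ring
        rw [e4] at e3
        exact e3
      have e3 := (HasDerivAt.comp u e1 e2).div_const (2 * η)
      have e4 : (∑ m', ∑ β, lw (1 / 2 + η * (2 * u - 1)) β *
          (sb (g m (Function.update β m' true)) - sb (g m (Function.update β m' false)))) *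
            (2 * η) / (2 * η) = R m u := by
        rw [mul_div_assoc, div_self (by positivity), mul_one]
      rw [e4] at e3
      exact e3
    rw [intervalIntegral.integral_eq_sub_of_hasDerivAt (fun u _ => hd u)
      ((hRc m).intervalIntegrable _ _)]
    have hb : ∀ p : ℝ, 0 ≤ p → p ≤ 1 → |∑ β, lw p β * sb (g m β)| ≤ 1 := by
      intro p hp0 hp1
      calc |∑ β, lw p β * sb (g m β)| ≤ ∑ β, |lw p β * sb (g m β)| := abs_sum_le_sum_abs _ _
        _ = ∑ β, lw p β := by
            refine sum_congr rfl fun β _ => ?_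
            rw [abs_mul, abs_of_nonneg (lw_nn hp0 hp1 β)]
            have : |sb (g m β)| = 1 := by
              unfold sb
              split_ifs <;> simp
            rw [this, mul_one]
        _ = 1 := sum_lw p
    have hb1 := (abs_le.1 (hb (1 / 2 + η * (2 * 1 - 1)) (by linarith) (by linarith))).2
    have hb0 := (abs_le.1 (hb (1 / 2 + η * (2 * 0 - 1)) (by linarith) (by linarith))).1
    rw [← sub_div, div_le_div_iff₀ (by positivity) hη]
    nlinarith
  have hN1 : ∀ m m', ∫ u in (0 : ℝ)..1, NN m m' u = ∑ β, wa η β * ic (Neg (g m) m' β) :=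
    fun m m' => (w3 _).symm
  have hiR : ∀ m, IntervalIntegrable (R m) MeasureTheory.volume 0 1 :=
    fun m => (hRc m).intervalIntegrable _ _
  have hiN : ∀ m m', IntervalIntegrable (NN m m') MeasureTheory.volume 0 1 :=
    fun m m' => (hNc m m').intervalIntegrable _ _
  have hcS : Continuous (fun u : ℝ => ∑ m, R m u) := continuous_finsetSum _ fun m _ => hRc m
  have hcN : Continuous (fun u : ℝ => ∑ m, ∑ m', NN m m' u) :=
    continuous_finsetSum _ fun m _ => continuous_finsetSum _ fun m' _ => hNc m m'
  rw [w3]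
  calc ∫ u in (0 : ℝ)..1, ∑ β, lw (1 / 2 + η * (2 * u - 1)) β *
        ic ((1 / 2 + η + γ / 2) * K < cnt fun m => g m β = !β m) ≤
      ∫ u in (0 : ℝ)..1, (c * (K / 4) + c / 4 * (∑ m, R m u) + c * ∑ m, ∑ m', NN m m' u) := by
        refine intervalIntegral.integral_mono_on zero_le_one ?_ ?_ fun u hu => ?_
        · refine Continuous.intervalIntegrable ?_ _ _
          exact continuous_finsetSum _ fun β _ => (lw_cont η β).mul continuous_const
        · refine Continuous.intervalIntegrable ?_ _ _
          exact (continuous_const.add (continuous_const.mul hcS)).add (continuous_const.mul hcN)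
        · have hp0 : 1 / 2 - η ≤ 1 / 2 + η * (2 * u - 1) := by nlinarith [hu.1]
          have hp1 : 1 / 2 + η * (2 * u - 1) ≤ 1 / 2 + η := by nlinarith [hu.2]
          have e1 := h3 M (1 / 2 + η * (2 * u - 1)) g (by linarith) (by linarith) hg
          calc ∑ β, lw (1 / 2 + η * (2 * u - 1)) β *
                ic ((1 / 2 + η + γ / 2) * K < cnt fun m => g m β = !β m) ≤
              ∑ β, lw (1 / 2 + η * (2 * u - 1)) β * (c *
                (∑ m, sb (g m β) * ((if β m = true then 1 else 0) -
                  (1 / 2 + η * (2 * u - 1)))) ^ 2) := by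
                refine sum_le_sum fun β _ => ?_
                exact mul_le_mul_of_nonneg_left (ic_le g hγ hK0 hp0 hp1 β)
                  (lw_nn (by linarith) (by linarith) β)
            _ = c * ∑ β, lw (1 / 2 + η * (2 * u - 1)) β *
                (∑ m, sb (g m β) * ((if β m = true then 1 else 0) -
                  (1 / 2 + η * (2 * u - 1)))) ^ 2 := by
                rw [mul_sum]
                exact sum_congr rfl fun β _ => by ring
            _ ≤ c * (K / 4 + 1 / 4 * (∑ m, R m u) + ∑ m, ∑ m', NN m m' u) :=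
                mul_le_mul_of_nonneg_left e1 hc0.le
            _ = _ := by ring
    _ = c * (K / 4) + c / 4 * (∑ m, ∫ u in (0 : ℝ)..1, R m u) +
        c * ∑ m, ∑ m', ∫ u in (0 : ℝ)..1, NN m m' u := by
        rw [intervalIntegral.integral_add, intervalIntegral.integral_add,
          intervalIntegral.integral_const, intervalIntegral.integral_const_mul,
          intervalIntegral.integral_const_mul, intervalIntegral.integral_finsetSum,
          intervalIntegral.integral_finsetSum]
        · simp_rw [intervalIntegral.integral_finsetSum (fun m' _ => hiN _ m')]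
          simp
        · intro m _
          exact (continuous_finsetSum _ fun m' _ => hNc m m').intervalIntegrable _ _
        · exact fun m _ => hiR m
        · exact continuous_const.intervalIntegrable _ _
        · exact (continuous_const.mul hcS).intervalIntegrable _ _
        · exact (continuous_const.add (continuous_const.mul hcS)).intervalIntegrable _ _
        · exact (continuous_const.mul hcN).intervalIntegrable _ _
    _ ≤ c * (K / 4) + c / 4 * (K * (1 / η)) +
        c * ∑ m, ∑ m', ∑ β, wa η β * ic (Neg (g m) m' β) := by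
        have e1 : ∑ m, ∫ u in (0 : ℝ)..1, R m u ≤ K * (1 / η) := by
          calc ∑ m, ∫ u in (0 : ℝ)..1, R m u ≤ ∑ _m : M, 1 / η := sum_le_sum fun m _ => hR1 m
            _ = K * (1 / η) := by rw [sum_const, card_univ, nsmul_eq_mul]
        have e2 : ∑ m, ∑ m', ∫ u in (0 : ℝ)..1, NN m m' u =
            ∑ m, ∑ m', ∑ β, wa η β * ic (Neg (g m) m' β) :=
          sum_congr rfl fun m _ => sum_congr rfl fun m' _ => hN1 m m'
        rw [e2]
        have e3 := mul_le_mul_of_nonneg_left e1 (show 0 ≤ c / 4 by positivity)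
        linarith
    _ ≤ 2 / (η * γ ^ 2 * K) + c * ∑ m, ∑ m', ∑ β, wa η β * ic (Neg (g m) m' β) := by
        have e1 : c * (K / 4) + c / 4 * (K * (1 / η)) ≤ 2 / (η * γ ^ 2 * K) := by
          have e2 : c * (K / 4) + c / 4 * (K * (1 / η)) = (η + 1) / (η * γ ^ 2 * K) := by
            rw [hc]
            field_simp
          rw [e2]
          exact div_le_div_of_nonneg_right (by linarith) (by positivity)
        linarith

end Pool.Agent.H48.NE.TLG
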